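import Pool.Agent.Lib_helper49.CentralIdeal

/-!
# Closed ideals of `ℓ¹(G)` of finite codimension on all abelian subgroups

A countable group `G`, nilpotent of class two and of exponent dividing four, with a left-invariant
mean on `ℓ^∞(G)`, and a closed two-sided ideal `I` of `ℓ¹(G)` of infinite codimension, such that
`I ∩ ℓ¹(H)` has codimension at most two in `ℓ¹(H)` for every abelian subgroup `H` of `G`.
-/

namespace Pool.Agent.Results.MP_935ebb_an.CentralIdeal

open Filter Topology Classical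
open Pool.Agent.Lib_helper49.CentralIdeal (Gp Fn L)

/-- `f` is bounded, that is an element of `ℓ^∞(G)`. -/
def Bounded {G : Type} (f : G → ℂ) : Prop := ∃ C : ℝ, ∀ x, ‖f x‖ ≤ C

/-- `G` is amenable: there is a mean `m` on `ℓ^∞(G)`, that is a linear functional with
`m 1 = 1` and `|m f| ≤ C` if `|f| ≤ C`, which is invariant under the left translations. -/
def Amenable (G : Type) [Group G] : Prop :=
  ∃ m : (G → ℂ) → ℂ,
    (∀ f h, Bounded f → Bounded h → m (fun x => f x + h x) = m f + m h) ∧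
    (∀ (c : ℂ) (f : G → ℂ), Bounded f → m (fun x => c * f x) = c * m f) ∧
    m (fun _ => 1) = 1 ∧
    (∀ (f : G → ℂ) (C : ℝ), (∀ x, ‖f x‖ ≤ C) → ‖m f‖ ≤ C) ∧
    ∀ (g : G) (f : G → ℂ), Bounded f → m (fun x => f (g⁻¹ * x)) = m f

/-- `ℓ¹(G)`: the summable complex functions on `G`. -/
def ell (G : Type) : Set (G → ℂ) := {f | Summable fun x => ‖f x‖}

/-- `ℓ¹(H)` inside `ℓ¹(G)`: the summable functions on `G` which vanish outside `H`. -/
def ellOn {G : Type} [Group G] (H : Subgroup G) : Set (G → ℂ) :=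
  {f | f ∈ ell G ∧ ∀ x, x ∉ H → f x = 0}

/-- The convolution product. -/
noncomputable def conv {G : Type} [Group G] (f g : G → ℂ) : G → ℂ :=
  fun x => ∑' y, f y * g (y⁻¹ * x)

/-- `I` is a norm-closed two-sided ideal of `ℓ¹(G)`: a linear subspace of `ℓ¹(G)`, stable under
convolution with all elements of `ℓ¹(G)` on both sides, which contains the elements of `ℓ¹(G)`
which it approximates in the norm of `ℓ¹(G)`. -/
def IsClosedIdeal {G : Type} [Group G] (I : Set (G → ℂ)) : Prop :=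
  I ⊆ ell G ∧ 0 ∈ I ∧ (∀ f ∈ I, ∀ g ∈ I, ∀ c : ℂ, (fun x => c * f x + g x) ∈ I) ∧
    (∀ f ∈ ell G, ∀ g ∈ I, conv f g ∈ I ∧ conv g f ∈ I) ∧
    ∀ f ∈ ell G, (∀ ε : ℝ, 0 < ε → ∃ g ∈ I, ∑' x, ‖f x - g x‖ < ε) → f ∈ I

/-- `dim (W / (I ∩ W)) ≤ n`, for linear spaces `W`, `I` of functions: modulo `I` every element of
`W` is a linear combination of `n` fixed elements of `W`. -/
def CodimLE {G : Type} (n : ℕ) (W I : Set (G → ℂ)) : Prop :=
  ∃ u : Fin n → G → ℂ, (∀ i, u i ∈ W) ∧
    ∀ f ∈ W, ∃ a : Fin n → ℂ, (fun x => f x - ∑ i, a i * u i x) ∈ I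

/-! ### The mean -/

/-- the average over the `n`-th finite subgroup -/
noncomputable def av (f : Gp → ℂ) (n : ℕ) : ℂ := (∑ x ∈ Fn n, f x) / ((Fn n).card : ℂ)

theorem card_ne (n : ℕ) : ((Fn n).card : ℂ) ≠ 0 := by
  have h := Pool.Agent.Lib_helper49.CentralIdeal.card_Fn_pos n
  have h2 : (Fn n).card ≠ 0 := by
    intro h0
    rw [h0] at h
    simp at h
  exact_mod_cast h2

theorem av_bound (f : Gp → ℂ) (C : ℝ) (hC : ∀ x, ‖f x‖ ≤ C) (n : ℕ) :
    av f n ∈ Metric.closedBall (0 : ℂ) C := by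
  rw [mem_closedBall_zero_iff]
  unfold av
  rw [norm_div, Complex.norm_natCast,
    div_le_iff₀ (Pool.Agent.Lib_helper49.CentralIdeal.card_Fn_pos n)]
  refine (norm_sum_le _ _).trans ?_
  refine (Finset.sum_le_card_nsmul _ _ C fun x _ => hC x).trans ?_
  rw [nsmul_eq_mul, mul_comm]

theorem exists_lim (f : Gp → ℂ) (hf : Bounded f) :
    ∃ l : ℂ, Tendsto (av f) (hyperfilter ℕ : Filter ℕ) (𝓝 l) := by
  obtain ⟨C, hC⟩ := hf
  have hc : IsCompact (Metric.closedBall (0 : ℂ) C) := isCompact_closedBall _ _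
  obtain ⟨l, -, h⟩ := hc.ultrafilter_le_nhds ((hyperfilter ℕ).map (av f)) (by
    rw [Filter.le_principal_iff]
    show ∀ᶠ n in (hyperfilter ℕ : Filter ℕ), av f n ∈ Metric.closedBall (0 : ℂ) C
    exact Eventually.of_forall (av_bound f C hC))
  exact ⟨l, h⟩

theorem av_translate (g : Gp) (f : Gp → ℂ) (n : ℕ)
    (hg : g ∈ Fn n) : av (fun x => f (g⁻¹ * x)) n = av f n := by
  unfold av
  congr 1
  apply Finset.sum_bij' (fun x _ => g⁻¹ * x) (fun x _ => g * x)
  · intro x hx
    exact Pool.Agent.Lib_helper49.CentralIdeal.mul_mem_Fn n _ _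
      (Pool.Agent.Lib_helper49.CentralIdeal.inv_mem_Fn n g hg) hx
  · intro x hx
    exact Pool.Agent.Lib_helper49.CentralIdeal.mul_mem_Fn n _ _ hg hx
  · intro x _
    exact mul_inv_cancel_left g x
  · intro x _
    exact inv_mul_cancel_left g x
  · intro x _
    rfl

/-- the ultralimit of the averages -/
noncomputable def mean (f : Gp → ℂ) : ℂ :=
  if hf : Bounded f then (exists_lim f hf).choose else 0

theorem mean_tendsto {f : Gp → ℂ} (hf : Bounded f) :
    Tendsto (av f) (hyperfilter ℕ : Filter ℕ) (𝓝 (mean f)) := by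
  have h : mean f = (exists_lim f hf).choose := dif_pos hf
  rw [h]
  exact (exists_lim f hf).choose_spec

theorem amenable_Gp : Amenable Gp := by
  refine ⟨mean, ?_, ?_, ?_, ?_, ?_⟩
  · intro f h hf hh
    have hs : Bounded fun x => f x + h x := by
      obtain ⟨C, hC⟩ := hf
      obtain ⟨D, hD⟩ := hh
      exact ⟨C + D, fun x => (norm_add_le _ _).trans (add_le_add (hC x) (hD x))⟩
    refine tendsto_nhds_unique (mean_tendsto hs) ?_
    have h1 : av (fun x => f x + h x) = fun n => av f n + av h n := by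
      funext n
      unfold av
      rw [← add_div, ← Finset.sum_add_distrib]
    rw [h1]
    exact (mean_tendsto hf).add (mean_tendsto hh)
  · intro c f hf
    have hs : Bounded fun x => c * f x := by
      obtain ⟨C, hC⟩ := hf
      refine ⟨‖c‖ * C, fun x => ?_⟩
      rw [norm_mul]
      exact mul_le_mul_of_nonneg_left (hC x) (norm_nonneg c)
    refine tendsto_nhds_unique (mean_tendsto hs) ?_
    have h1 : av (fun x => c * f x) = fun n => c * av f n := by
      funext n
      unfold av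
      rw [← mul_div_assoc, Finset.mul_sum]
    rw [h1]
    exact (mean_tendsto hf).const_mul c
  · have hs : Bounded fun _ : Gp => (1 : ℂ) := ⟨1, fun x => by rw [norm_one]⟩
    refine tendsto_nhds_unique (mean_tendsto hs) ?_
    have h1 : av (fun _ => 1) = fun _ => 1 := by
      funext n
      unfold av
      rw [Finset.sum_const, nsmul_eq_mul, mul_one, div_self (card_ne n)]
    rw [h1]
    exact tendsto_const_nhds
  · intro f C hC
    have h1 : mean f ∈ Metric.closedBall (0 : ℂ) C :=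
      Metric.isClosed_closedBall.mem_of_tendsto (mean_tendsto ⟨C, hC⟩)
        (Eventually.of_forall fun n => av_bound f C hC n)
    exact mem_closedBall_zero_iff.1 h1
  · intro g f hf
    have hs : Bounded fun x => f (g⁻¹ * x) := by
      obtain ⟨C, hC⟩ := hf
      exact ⟨C, fun x => hC _⟩
    refine tendsto_nhds_unique (mean_tendsto hs) ?_
    refine (mean_tendsto hf).congr' ?_
    have h1 : (hyperfilter ℕ : Filter ℕ) ≤ atTop := by
      rw [← Nat.cofinite_eq_atTop]
      exact hyperfilter_le_cofinite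
    apply h1
    obtain ⟨n₀, hn₀⟩ := Pool.Agent.Lib_helper49.CentralIdeal.exists_mem_Fn g
    rw [Filter.mem_atTop_sets]
    exact ⟨n₀, fun n hn => (av_translate g f n (hn₀ n hn)).symm⟩

/-! ### The group -/

theorem comm_central (x y z : Gp) :
    (x * y * x⁻¹ * y⁻¹) * z = z * (x * y * x⁻¹ * y⁻¹) := by
  have h1 : (x * y * x⁻¹ * y⁻¹).1 = ∅ := by
    rw [Gp.mul_fst, Gp.mul_fst, Gp.mul_fst, Gp.inv_fst, Gp.inv_fst]
    ext i
    simp only [Finset.mem_symmDiff, Finset.notMem_empty]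
    tauto
  have h2 : ∀ c : Gp, c.1 = ∅ → c * z = z * c := by
    rintro ⟨A, S⟩ hA
    have hA' : A = ∅ := hA
    subst hA'
    obtain ⟨B, T⟩ := z
    rw [Gp.mul_def, Gp.mul_def]
    refine Gp.ext ?_ ?_
    · exact symmDiff_comm _ _
    · show symmDiff (symmDiff S T) (∅ ×ˢ B) = symmDiff (symmDiff T S) (B ×ˢ ∅)
      rw [Finset.empty_product, Finset.product_empty, symmDiff_comm S T]
  exact h2 _ h1

theorem pow_four (x : Gp) : x ^ 4 = 1 := by
  obtain ⟨A, S⟩ := x
  have h1 : (⟨A, S⟩ : Gp) * ⟨A, S⟩ = ⟨∅, A ×ˢ A⟩ := by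
    rw [Gp.mul_def]
    refine Gp.ext ?_ ?_
    · show symmDiff A A = ∅
      rw [symmDiff_self]
      rfl
    · show symmDiff (symmDiff S S) (A ×ˢ A) = A ×ˢ A
      rw [symmDiff_self, bot_symmDiff]
  have h2 : (⟨∅, A ×ˢ A⟩ : Gp) * ⟨∅, A ×ˢ A⟩ = 1 := by
    rw [Gp.mul_def]
    refine Gp.ext ?_ ?_
    · show symmDiff (∅ : Finset ℕ) ∅ = ∅
      rw [symmDiff_self]
      rfl
    · show symmDiff (symmDiff (A ×ˢ A) (A ×ˢ A)) ((∅ : Finset ℕ) ×ˢ (∅ : Finset ℕ)) = ∅
      rw [symmDiff_self, bot_symmDiff, Finset.empty_product]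
  rw [show (4 : ℕ) = 2 * 2 from rfl, pow_mul, pow_two (⟨A, S⟩ : Gp), h1, pow_two, h2]

theorem countable_Gp : Countable Gp := Gp.equivProd.symm.injective.countable

/-! ### The ideal -/

theorem row_summable {f : Gp → ℂ} (hf : f ∈ ell Gp) (A : Finset ℕ) :
    Summable fun S => ‖f ⟨A, S⟩‖ := by
  have h : Summable fun x => ‖f x‖ := hf
  exact h.comp_injective (i := fun S => (⟨A, S⟩ : Gp)) (fun S T h => congrArg Gp.snd h)

/-- The sum over a coset of the central subgroup. -/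
noncomputable def phi (A : Finset ℕ) (f : Gp → ℂ) : ℂ := ∑' S, f ⟨A, S⟩

/-- The kernel of the natural map `ℓ¹(G) → ℓ¹(G/N)`. -/
def Id : Set (Gp → ℂ) := {f | f ∈ ell Gp ∧ ∀ A : Finset ℕ, phi A f = 0}

theorem ell_comb {G : Type} {f g : G → ℂ} (hf : f ∈ ell G) (hg : g ∈ ell G) (c : ℂ) :
    (fun x => c * f x + g x) ∈ ell G := by
  have hf' : Summable fun x => ‖c‖ * ‖f x‖ := Summable.mul_left _ hf
  refine Summable.of_nonneg_of_le (fun _ => norm_nonneg _) (fun x => ?_) (hf'.add hg)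
  refine (norm_add_le (c * f x) (g x)).trans ?_
  rw [norm_mul]

theorem phi_comb {f g : Gp → ℂ} (hf : f ∈ ell Gp) (hg : g ∈ ell Gp) (c : ℂ) (A : Finset ℕ) :
    phi A (fun x => c * f x + g x) = c * phi A f + phi A g := by
  unfold phi
  have h1 : Summable fun S => c * f ⟨A, S⟩ := (row_summable hf A).of_norm.mul_left c
  rw [h1.tsum_add (row_summable hg A).of_norm, tsum_mul_left]

theorem ell_zero {G : Type} : (fun _ : G => (0 : ℂ)) ∈ ell G := by
  show Summable fun _ : G => ‖(0 : ℂ)‖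
  rw [norm_zero]
  exact summable_zero

theorem phi_zero (A : Finset ℕ) : phi A (fun _ => 0) = 0 := tsum_zero

/-- finite combinations -/
theorem comb {n : ℕ} (u : Fin n → Gp → ℂ) (hu : ∀ i, u i ∈ ell Gp) (a : Fin n → ℂ)
    (s : Finset (Fin n)) : (fun x => ∑ i ∈ s, a i * u i x) ∈ ell Gp ∧
      ∀ A, phi A (fun x => ∑ i ∈ s, a i * u i x) = ∑ i ∈ s, a i * phi A (u i) := by
  induction s using Finset.induction_on with
  | empty =>
    simp only [Finset.sum_empty]
    exact ⟨ell_zero, phi_zero⟩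
  | insert i s hi ih =>
    have e : (fun x => ∑ j ∈ insert i s, a j * u j x) =
        fun x => a i * u i x + ∑ j ∈ s, a j * u j x := by
      funext x
      rw [Finset.sum_insert hi]
    rw [e]
    refine ⟨ell_comb (hu i) ih.1 (a i), fun A => ?_⟩
    rw [phi_comb (hu i) ih.1 (a i) A, ih.2, Finset.sum_insert hi]

theorem diff {n : ℕ} (u : Fin n → Gp → ℂ) (hu : ∀ i, u i ∈ ell Gp) (a : Fin n → ℂ)
    {f : Gp → ℂ} (hf : f ∈ ell Gp) : (fun x => f x - ∑ i, a i * u i x) ∈ ell Gp ∧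
      ∀ A, phi A (fun x => f x - ∑ i, a i * u i x) = phi A f - ∑ i, a i * phi A (u i) := by
  have h := comb u hu a Finset.univ
  have e : (fun x => f x - ∑ i, a i * u i x) = fun x => (-1) * (∑ i, a i * u i x) + f x := by
    funext x
    ring
  rw [e]
  refine ⟨ell_comb h.1 hf (-1), fun A => ?_⟩
  rw [phi_comb h.1 hf (-1) A, h.2]
  ring

theorem memℓp_of {f : Gp → ℂ} (hf : f ∈ ell Gp) : Memℓp f 1 := by
  refine memℓp_gen ?_
  have h : Summable fun x => ‖f x‖ := hf
  simpa using h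

/-- The element of the space `ℓ¹(G)` of the library. -/
def toL {f : Gp → ℂ} (hf : f ∈ ell Gp) : L := ⟨f, memℓp_of hf⟩

theorem conv_mem {f g : Gp → ℂ} (hf : f ∈ ell Gp) (hg : g ∈ ell Gp) : conv f g ∈ ell Gp := by
  have hf' : Summable fun x => ‖f x‖ := hf
  have hg' : Summable fun x => ‖g x‖ := hg
  have h1 : Summable (fun p : Gp × Gp => ‖f p.1 * g p.2‖) :=
    (summable_mul_of_summable_norm hf' hg').norm
  have h2 : Function.Injective (fun p : Gp × Gp => ((p.2, p.2⁻¹ * p.1) : Gp × Gp)) := by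
    rintro ⟨x, y⟩ ⟨x', y'⟩ h
    have e1 : y = y' := congrArg Prod.fst h
    subst e1
    have e2 : y⁻¹ * x = y⁻¹ * x' := congrArg Prod.snd h
    rw [mul_left_cancel e2]
  have h3 : Summable (fun p : Gp × Gp => ‖f p.2 * g (p.2⁻¹ * p.1)‖) := by
    have h := h1.comp_injective h2
    have e : ((fun p : Gp × Gp => ‖f p.1 * g p.2‖) ∘
        fun p : Gp × Gp => ((p.2, p.2⁻¹ * p.1) : Gp × Gp)) =
        fun p : Gp × Gp => ‖f p.2 * g (p.2⁻¹ * p.1)‖ := by
      funext p
      rfl
    rw [e] at h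
    exact h
  have h4 : ∀ x, Summable fun y => ‖f y * g (y⁻¹ * x)‖ := fun x => h3.prod_factor x
  have h5 : Summable fun x => ∑' y, ‖f y * g (y⁻¹ * x)‖ := h3.prod
  have h6 : ∀ x, ‖conv f g x‖ ≤ ∑' y, ‖f y * g (y⁻¹ * x)‖ := fun x => by
    unfold conv
    exact norm_tsum_le_tsum_norm (h4 x)
  have h7 : Summable fun x => ‖conv f g x‖ :=
    Summable.of_nonneg_of_le (fun _ => norm_nonneg _) h6 h5
  exact h7

theorem mem_Id {f : Gp → ℂ} (hf : f ∈ ell Gp) :
    f ∈ Id ↔ toL hf ∈ Pool.Agent.Lib_helper49.CentralIdeal.Id := by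
  rw [Pool.Agent.Lib_helper49.CentralIdeal.mem_Id]
  exact ⟨fun h => h.2, fun h => ⟨hf, h⟩⟩

theorem closedIdeal_Id : IsClosedIdeal Id := by
  refine ⟨fun f hf => hf.1, ⟨ell_zero, phi_zero⟩, fun f hf g hg c =>
    ⟨ell_comb hf.1 hg.1 c, fun A => ?_⟩, fun f hf g hg => ⟨?_, ?_⟩, fun f hf h => ⟨hf, fun A => ?_⟩⟩
  · rw [phi_comb hf.1 hg.1 c A, hf.2, hg.2, mul_zero, add_zero]
  · refine (mem_Id (conv_mem hf hg.1)).2 ?_
    exact Pool.Agent.Lib_helper49.CentralIdeal.left_ideal (toL hf) (toL hg.1)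
      ((mem_Id hg.1).1 hg) _ fun _ => rfl
  · refine (mem_Id (conv_mem hg.1 hf)).2 ?_
    exact Pool.Agent.Lib_helper49.CentralIdeal.right_ideal (toL hf) (toL hg.1)
      ((mem_Id hg.1).1 hg) _ fun _ => rfl
  · rw [← norm_eq_zero]
    apply le_antisymm _ (norm_nonneg _)
    apply le_of_forall_pos_lt_add
    intro ε hε
    obtain ⟨g, hg, hfg⟩ := h ε hε
    have e : (fun x => f x - g x) = fun x => (-1) * g x + f x := by
      funext x
      ring
    have hd : (fun x => f x - g x) ∈ ell Gp := by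
      rw [e]
      exact ell_comb hg.1 hf (-1)
    have h1 : phi A f = phi A (fun x => f x - g x) := by
      rw [e, phi_comb hg.1 hf (-1) A, hg.2, mul_zero, zero_add]
    rw [h1, zero_add]
    refine lt_of_le_of_lt ?_ hfg
    refine (norm_tsum_le_tsum_norm (row_summable hd A)).trans ?_
    have hd' : Summable fun x => ‖f x - g x‖ := hd
    exact tsum_comp_le_tsum_of_inj hd' (fun _ => norm_nonneg _)
      (i := fun S => (⟨A, S⟩ : Gp)) (fun S T h => congrArg Gp.snd h)

theorem single_mem (x : Gp) : (Pi.single x (1 : ℂ) : Gp → ℂ) ∈ ell Gp := by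
  show Summable fun y => ‖(Pi.single x (1 : ℂ) : Gp → ℂ) y‖
  refine summable_of_ne_finset_zero (s := {x}) fun y hy => ?_
  rw [Pi.single_eq_of_ne (fun h => hy (Finset.mem_singleton.2 h)), norm_zero]

theorem phi_single (A : Finset ℕ) (x : Gp) :
    phi A (Pi.single x (1 : ℂ)) = if x.fst = A then 1 else 0 := by
  unfold phi
  split_ifs with h
  · rw [tsum_eq_single x.snd]
    · have : (⟨A, x.snd⟩ : Gp) = x := Gp.ext h.symm rfl
      rw [this, Pi.single_eq_same]
    · intro S hS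
      exact Pi.single_eq_of_ne (fun h2 => hS (congrArg Gp.snd h2)) _
  · have h0 : ∀ S, (Pi.single x (1 : ℂ) : Gp → ℂ) ⟨A, S⟩ = 0 := fun S =>
      Pi.single_eq_of_ne (fun h' => h (congrArg Gp.fst h').symm) _
    simp only [h0, tsum_zero]

theorem codim_le (H : Subgroup Gp) (hH : ∀ a ∈ H, ∀ b ∈ H, a * b = b * a) :
    CodimLE 2 (ellOn H) Id := by
  have hz : ∀ (f : Gp → ℂ) (A : Finset ℕ), (∀ S, f ⟨A, S⟩ = 0) → phi A f = 0 := by
    intro f A h0
    unfold phi
    simp only [h0, tsum_zero]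
  have hs : ∀ x ∈ H, (Pi.single x (1 : ℂ) : Gp → ℂ) ∈ ellOn H := fun x hx =>
    ⟨single_mem x, fun y hy => Pi.single_eq_of_ne (fun h => hy (by rwa [h])) _⟩
  by_cases hex : ∃ h ∈ H, h.fst.Nonempty
  · obtain ⟨h, hh, hne⟩ := hex
    refine ⟨![Pi.single 1 1, Pi.single h 1], fun i => ?_, ?_⟩
    · fin_cases i
      · exact hs 1 H.one_mem
      · exact hs h hh
    intro f hf
    have hu : ∀ i, (![Pi.single 1 1, Pi.single h 1] : Fin 2 → Gp → ℂ) i ∈ ell Gp := fun i => by
      fin_cases i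
      · exact single_mem 1
      · exact single_mem h
    refine ⟨![phi ∅ f, phi h.fst f], ?_⟩
    obtain ⟨h1, h2⟩ := diff _ hu ![phi ∅ f, phi h.fst f] hf.1
    refine ⟨h1, fun A => ?_⟩
    rw [h2, Fin.sum_univ_two]
    show phi A f - (phi ∅ f * phi A (Pi.single 1 1) + phi h.fst f * phi A (Pi.single h 1)) = 0
    rw [phi_single, phi_single]
    show phi A f - (phi ∅ f * (if (∅ : Finset ℕ) = A then 1 else 0) +
      phi h.fst f * (if h.fst = A then 1 else 0)) = 0
    by_cases hA : ∅ = A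
    · subst hA
      rw [if_pos rfl, if_neg hne.ne_empty]
      ring
    by_cases hA2 : h.fst = A
    · subst hA2
      rw [if_neg hA, if_pos rfl]
      ring
    rw [if_neg hA, if_neg hA2, hz f A fun S => hf.2 _ fun hmem => hA2 ?_]
    · ring
    exact Gp.comm_fst h ⟨A, S⟩ (hH _ hh _ hmem) hne (Finset.nonempty_iff_ne_empty.2 (Ne.symm hA))
  · refine ⟨![Pi.single 1 1, 0], fun i => ?_, ?_⟩
    · fin_cases i
      · exact hs 1 H.one_mem
      · exact ⟨ell_zero, fun x _ => rfl⟩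
    intro f hf
    have hu : ∀ i, (![Pi.single 1 1, 0] : Fin 2 → Gp → ℂ) i ∈ ell Gp := fun i => by
      fin_cases i
      · exact single_mem 1
      · exact ell_zero
    refine ⟨![phi ∅ f, 0], ?_⟩
    obtain ⟨h1, h2⟩ := diff _ hu ![phi ∅ f, 0] hf.1
    refine ⟨h1, fun A => ?_⟩
    rw [h2, Fin.sum_univ_two]
    show phi A f - (phi ∅ f * phi A (Pi.single 1 1) + 0 * phi A 0) = 0
    rw [phi_single]
    show phi A f - (phi ∅ f * (if (∅ : Finset ℕ) = A then 1 else 0) + 0 * phi A 0) = 0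
    by_cases hA : ∅ = A
    · subst hA
      rw [if_pos rfl]
      ring
    rw [if_neg hA, hz f A fun S => hf.2 _ fun hmem => hex ?_]
    · ring
    exact ⟨_, hmem, Finset.nonempty_iff_ne_empty.2 (Ne.symm hA)⟩

theorem codim_infinite (n : ℕ) : ¬ CodimLE n (ell Gp) Id := by
  rintro ⟨u, hu, h⟩
  -- the coordinates of the singletons
  let Φ : (Gp → ℂ) → Fin (n + 1) → ℂ := fun f j => phi {(j : ℕ)} f
  have h1 : Submodule.span ℂ (Set.range fun i => Φ (u i)) = ⊤ := by
    rw [eq_top_iff]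
    intro w _
    -- a function with the coordinates `w`
    have hv : ∀ j : Fin (n + 1), (Pi.single (⟨{(j : ℕ)}, ∅⟩ : Gp) (1 : ℂ) : Gp → ℂ) ∈ ell Gp :=
      fun j => single_mem _
    obtain ⟨hf1, hf2⟩ := comb (fun j : Fin (n + 1) => Pi.single (⟨{(j : ℕ)}, ∅⟩ : Gp) (1 : ℂ)) hv w
      Finset.univ
    obtain ⟨a, ha⟩ := h _ hf1
    have hd := (diff u hu a hf1).2
    have h2 : w = ∑ i, a i • Φ (u i) := by
      funext j
      have h3 := ha.2 {(j : ℕ)}
      rw [hd, hf2, sub_eq_zero] at h3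
      rw [Finset.sum_apply]
      have h4 : ∑ i : Fin (n + 1), w i * phi {(j : ℕ)}
          (Pi.single (⟨{(i : ℕ)}, ∅⟩ : Gp) (1 : ℂ)) = w j := by
        rw [Finset.sum_eq_single j]
        · rw [phi_single, if_pos rfl, mul_one]
        · intro i _ hij
          rw [phi_single, if_neg, mul_zero]
          intro h5
          exact hij (Fin.ext (Finset.singleton_injective h5))
        · intro h5
          exact absurd (Finset.mem_univ j) h5
      rw [h4] at h3
      exact h3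
    rw [h2]
    exact Submodule.sum_mem _ fun i _ =>
      Submodule.smul_mem _ _ (Submodule.subset_span ⟨i, rfl⟩)
  have h2 := finrank_range_le_card (R := ℂ) (fun i => Φ (u i))
  unfold Set.finrank at h2
  rw [h1, finrank_top, Module.finrank_fintype_fun_eq_card, Fintype.card_fin, Fintype.card_fin] at h2
  omega

/-- There are a countable group `G`, nilpotent of class at most two and of exponent dividing four,
which is amenable, and a closed two-sided ideal `I` of `ℓ¹(G)` of infinite codimension such that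
for every abelian subgroup `H` of `G` the codimension of `I ∩ ℓ¹(H)` in `ℓ¹(H)` is at most two. -/
theorem result : ∃ (G : Type) (_ : Group G), Amenable G ∧ Countable G ∧
    (∀ x y z : G, (x * y * x⁻¹ * y⁻¹) * z = z * (x * y * x⁻¹ * y⁻¹)) ∧ (∀ x : G, x ^ 4 = 1) ∧
    ∃ I : Set (G → ℂ), IsClosedIdeal I ∧
      (∀ H : Subgroup G, (∀ a ∈ H, ∀ b ∈ H, a * b = b * a) → CodimLE 2 (ellOn H) I) ∧
      ∀ n : ℕ, ¬ CodimLE n (ell G) I :=
  ⟨Gp, inferInstance, amenable_Gp, countable_Gp, comm_central, pow_four, Id, closedIdeal_Id,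
    codim_le, codim_infinite⟩

end Pool.Agent.Results.MP_935ebb_an.CentralIdeal
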