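import Pool.Agent.FGA.Main

/-!
# Closed ideals of `ℓ¹(G)` of finite codimension on all abelian subgroups, `G` finitely generated

A finitely generated torsion-free group `G` with a left-invariant mean on `ℓ^∞(G)`, and a closed
two-sided ideal `I` of `ℓ¹(G)` of infinite codimension, such that `I ∩ ℓ¹(H)` has finite codimension
in `ℓ¹(H)` for every abelian subgroup `H` of `G`.

Let `Q` be the group of Grigorchuk, with its generators `a, b, c, d`: an infinite torsion group of
subexponential growth.  `G` is the group of the pairs `(v, q)`, where `q ∈ Q` and `v` is the flow of a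
path from `1` to `q` in the Cayley graph of `Q`, a function with finite support on the edges.
`I` is the kernel of the map from `ℓ¹(G)` to `ℓ¹(Q)`.
-/

namespace Pool.Agent.Results.MP_935ebb_an.FinitelyGenerated

open Pool.Agent.FGA (Amenable IsClosedIdeal CodimLE ell ellOn)

/-- There are a finitely generated torsion-free amenable group `G` and a closed two-sided ideal `I`
of `ℓ¹(G)` of infinite codimension such that for every abelian subgroup `H` of `G` the
codimension of `I ∩ ℓ¹(H)` in `ℓ¹(H)` is finite. -/
theorem result : ∃ (G : Type) (_ : Group G), Amenable G ∧ Group.FG G ∧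
    (∀ x : G, x ≠ 1 → ∀ n : ℕ, 0 < n → x ^ n ≠ 1) ∧
    ∃ I : Set (G → ℂ), IsClosedIdeal I ∧
      (∀ H : Subgroup G, (∀ a ∈ H, ∀ b ∈ H, a * b = b * a) →
        ∃ n, CodimLE n (ellOn H) I) ∧
      ∀ n, ¬ CodimLE n (ell G) I :=
  Pool.Agent.FGA.fg_example

end Pool.Agent.Results.MP_935ebb_an.FinitelyGenerated
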